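import Pool.Agent.Work.MP_2a0e18_al.Defs
import Pool.Agent.Work.MP_2a0e18_al.AllP.Main

open Pool.Agent.Work.MP_2a0e18_al

/-- Q1 has a positive answer in every positive characteristic: a finite-dimensional Hopf algebra
over a field of characteristic `p` with infinitely many two-sided group-like projections. -/
theorem Pool.Agent.Results.MP_2a0e18_al.InfiniteProjAllP.result (p : ℕ) (hp : p.Prime) :
    ∃ (k : Type) (_ : Field k) (_ : CharP k p) (A : Type) (_ : Ring A) (_ : HopfAlgebra k A),
      FiniteDimensional k A ∧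
      {P : A | IsRightGroupLikeProj k P ∧ IsLeftGroupLikeProj k P}.Infinite :=
  haveI : Fact p.Prime := ⟨hp⟩
  ⟨AlgebraicClosure (ZMod p), inferInstance, inferInstance, AllP.U (AlgebraicClosure (ZMod p)) p,
    inferInstance, inferInstance, inferInstance,
    AllP.infinite_set.mono fun _ h => ⟨⟨h.1, h.2.1, h.2.2.1, h.2.2.2.1⟩, ⟨h.1, h.2.1, h.2.2.2.2⟩⟩⟩
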